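import Pool.Agent.H740R3.BQStmts

set_option autoImplicit false
set_option maxHeartbeats 4000000
set_option synthInstance.maxHeartbeats 400000

open Filter Topology

namespace Pool.Agent.H773.BQ

open Pool.Agent.H740R3.BQ

universe u

/-- Vectors in the span are eventually fixed by the projections. -/
theorem fixed {X : Type u} [NormedAddCommGroup X] [NormedSpace ℂ X] (e : ℕ → X)
    (g : ℕ → StrongDual ℂ X) (hb : ∀ i j, g i (e j) = if i = j then 1 else 0) (f : X)
    (hf : f ∈ Submodule.span ℂ (Set.range e)) : ∃ K, ∀ N, K ≤ N → PN e g N f = f := by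
  induction hf using Submodule.span_induction with
  | mem x hx =>
    obtain ⟨j, rfl⟩ := hx
    refine ⟨j + 1, fun N hN => ?_⟩
    unfold PN
    rw [_root_.sum_apply]
    simp only [ContinuousLinearMap.smulRight_apply, hb]
    rw [Finset.sum_eq_single j]
    · simp
    · intro b _ hbj
      rw [if_neg hbj, zero_smul]
    · intro h
      exact absurd (Finset.mem_range.mpr (by omega)) h
  | zero => exact ⟨0, fun N _ => map_zero _⟩
  | add x y _ _ hx hy =>
    obtain ⟨K, hK⟩ := hx
    obtain ⟨K', hK'⟩ := hy
    exact ⟨max K K', fun N hN => by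
      rw [map_add, hK N (le_trans (le_max_left _ _) hN), hK' N (le_trans (le_max_right _ _) hN)]⟩
  | smul c x _ hx =>
    obtain ⟨K, hK⟩ := hx
    exact ⟨K, fun N hN => by rw [map_smul, hK N hN]⟩

theorem t11 : T11.{u} := by
  classical
  intro X _ _ _ e g hb hd
  have : SecondCountableTopology X := UniformSpace.secondCountable_of_separable X
  let S : Submodule ℂ X := Submodule.span ℂ (Set.range e)
  have : SecondCountableTopology S := inferInstance
  have : TopologicalSpace.SeparableSpace S := inferInstance
  let w : ℕ → S := TopologicalSpace.denseSeq S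
  have hw : DenseRange w := TopologicalSpace.denseRange_denseSeq S
  refine ⟨fun k => if ∀ N, k ≤ N → PN e g N (w (Nat.unpair k).1 : X) = (w (Nat.unpair k).1 : X)
    then (w (Nat.unpair k).1 : X) else 0, ?_⟩
  intro v δ hδ k0
  obtain ⟨s, hs1, hs2⟩ := Metric.dense_iff.mp hd v (δ / 2) (by positivity)
  obtain ⟨i, hi⟩ := Metric.denseRange_iff.mp hw ⟨s, hs2⟩ (δ / 2) (by positivity)
  obtain ⟨K, hK⟩ := fixed e g hb (w i : X) (w i).2
  have hpair : ∀ N, Nat.pair i (max k0 K) ≤ N → PN e g N (w i : X) = (w i : X) := by
    intro N hN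
    exact hK N ((le_max_right k0 K).trans ((Nat.right_le_pair i _).trans hN))
  refine ⟨Nat.pair i (max k0 K), (le_max_left k0 K).trans (Nat.right_le_pair i _), ?_, ?_⟩
  · simp only [Nat.unpair_pair]
    rw [if_pos hpair]
    have h1 : dist (s : X) (w i : X) < δ / 2 := hi
    have h2 : dist s v < δ / 2 := hs1
    rw [← dist_eq_norm]
    calc dist (w i : X) v ≤ dist (w i : X) s + dist s v := dist_triangle _ _ _
      _ < δ / 2 + δ / 2 := by rw [dist_comm (w i : X) s]; linarith
      _ = δ := by ring
  · simp only [Nat.unpair_pair]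
    rw [if_pos hpair]
    exact hpair

end Pool.Agent.H773.BQ
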